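import Pool.Agent.TH274.FL.Pert

/-!
# Degeneration of the denominator along a flag

For a space `V` of functions on a finite set, weights `w` and `l, x ∈ V` we consider the form
`(f, g) ↦ ∑_p w_p (l_p / x_p) f_p g_p`. When `x` tends to a function vanishing on a part of the
set, the form becomes large there.
-/

open Finset Polynomial

namespace Pool.Agent.TH274.FL

variable {K : Type*} [Field K] {ι : Type*} [DecidableEq ι]

section

variable {α : Type*} (w l lam x' : ι → K) (b : α → ι → K) (S' C : Finset ι)

/-- The leading coefficient. -/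
noncomputable def lead (a j : α) : K := ∑ p ∈ S', w p * (l p / x' p) * b a p * b j p

/-- The linear polynomial `λ_p + X x'_p`. -/
noncomputable def den (p : ι) : K[X] := Polynomial.C (lam p) + X * Polynomial.C (x' p)

/-- The rest, multiplied by the common denominator. -/
noncomputable def rest (a j : α) : K[X] :=
  ∑ p ∈ C, Polynomial.C (w p * l p * b a p * b j p) * ∏ q ∈ C.erase p, den lam x' q

/-- The system, multiplied by the common denominator and by `X`. -/
noncomputable def sys (a j : α) : K[X] :=
  (∏ q ∈ C, den lam x' q) * Polynomial.C (lead w l x' b S' a j) +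
    X * rest w l lam x' b C a j

omit [DecidableEq ι] in
lemma den_eval (p : ι) (t : K) : (den lam x' p).eval t = lam p + t * x' p := by
  simp only [den, eval_add, eval_mul, eval_C, eval_X]

lemma sys_eval {t : K} (ht : t ≠ 0) (hC : ∀ p ∈ C, lam p + t * x' p ≠ 0)
    (hS' : ∀ p ∈ S', lam p = 0) (hd : Disjoint S' C) (a : α) (J : Finset α) (v : α → K)
    (f : ι → K) (hf : ∀ p ∈ S' ∪ C, f p = ∑ j ∈ J, v j * b j p) :
    ∑ j ∈ J, (sys w l lam x' b S' C a j).eval t * v j =
      t * (∏ q ∈ C, (lam q + t * x' q)) *
        ∑ p ∈ S' ∪ C, w p * (l p / (lam p + t * x' p)) * f p * b a p := by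
  have e1 : ∀ j, (sys w l lam x' b S' C a j).eval t =
      (∏ q ∈ C, (lam q + t * x' q)) * lead w l x' b S' a j +
        t * ∑ p ∈ C, w p * l p * b a p * b j p * ∏ q ∈ C.erase p, (lam q + t * x' q) := by
    intro j
    simp only [sys, rest, eval_add, eval_mul, eval_prod, den_eval, eval_C, eval_X,
      eval_finsetSum]
  simp only [e1]
  rw [Finset.sum_union hd, mul_add]
  have e2 : ∑ j ∈ J, ((∏ q ∈ C, (lam q + t * x' q)) * lead w l x' b S' a j +
        t * ∑ p ∈ C, w p * l p * b a p * b j p * ∏ q ∈ C.erase p, (lam q + t * x' q)) * v j =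
      (∏ q ∈ C, (lam q + t * x' q)) * ∑ j ∈ J, lead w l x' b S' a j * v j +
        t * ∑ j ∈ J, (∑ p ∈ C, w p * l p * b a p * b j p *
          ∏ q ∈ C.erase p, (lam q + t * x' q)) * v j := by
    rw [Finset.mul_sum, Finset.mul_sum, ← Finset.sum_add_distrib]
    apply Finset.sum_congr rfl
    intro j _
    ring
  rw [e2]
  congr 1
  · have e3 : ∑ j ∈ J, lead w l x' b S' a j * v j =
        ∑ p ∈ S', w p * (l p / x' p) * b a p * f p := by
      unfold lead
      simp only [Finset.sum_mul]
      rw [Finset.sum_comm]
      apply Finset.sum_congr rfl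
      intro p hp
      rw [hf p (Finset.mem_union_left _ hp), Finset.mul_sum]
      apply Finset.sum_congr rfl
      intro j _
      ring
    rw [e3, Finset.mul_sum, Finset.mul_sum]
    apply Finset.sum_congr rfl
    intro p hp
    rw [hS' p hp, zero_add]
    by_cases hx : x' p = 0
    · rw [hx]
      simp
    · field_simp
  · have e3 : ∑ j ∈ J, (∑ p ∈ C, w p * l p * b a p * b j p *
          ∏ q ∈ C.erase p, (lam q + t * x' q)) * v j =
        ∑ p ∈ C, w p * l p * b a p * f p * ∏ q ∈ C.erase p, (lam q + t * x' q) := by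
      simp only [Finset.sum_mul]
      rw [Finset.sum_comm]
      apply Finset.sum_congr rfl
      intro p hp
      rw [hf p (Finset.mem_union_right _ hp)]
      rw [Finset.mul_sum, Finset.sum_mul]
      apply Finset.sum_congr rfl
      intro j _
      ring
    rw [e3, Finset.mul_sum, Finset.mul_sum]
    apply Finset.sum_congr rfl
    intro p hp
    have h1 := Finset.mul_prod_erase C (fun q => lam q + t * x' q) hp
    have h2 := hC p hp
    rw [← h1]
    field_simp

end

variable {V : Submodule K (ι → K)}

/-- **Flag degeneration.** If the forms `∑_{p ∈ S} w_p f_p g_p` are nonzero for all nonempty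
`S ⊆ T`, then for suitable `l, x` the form `∑_{p ∈ S} w_p (l_p / x_p) f_p g_p` is nondegenerate on
the restriction of `V` to `S`, for every `S ⊆ T`. -/
theorem main_flag [Infinite K] (w : ι → K) (hV : ∀ p, ∃ f ∈ V, f p ≠ 0) (T : Finset ι)
    (hU : ∀ S ⊆ T, S.Nonempty → ∃ f ∈ V, ∃ g ∈ V, ∑ p ∈ S, w p * f p * g p ≠ 0) :
    ∀ n : ℕ, ∀ S ⊆ T, ∀ I b, DB V S I b → I.card = n →
      ∃ l ∈ V, ∃ x ∈ V, (∀ p ∈ S, x p ≠ 0) ∧ ∀ f ∈ V,
        (∀ g ∈ V, ∑ p ∈ S, w p * (l p / x p) * f p * g p = 0) → ∀ p ∈ S, f p = 0 := by
  classical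
  intro n
  induction n with
  | zero =>
    intro S hS I b hDB hn
    have hI : I = ∅ := Finset.card_eq_zero.1 hn
    subst hI
    have hS0 : ∀ p, p ∉ S := by
      intro p hp
      obtain ⟨f, hf, hfp⟩ := hV p
      apply hfp
      rw [hDB.span f hf p hp, Finset.sum_empty]
    exact ⟨0, V.zero_mem, 0, V.zero_mem, fun p hp => absurd hp (hS0 p),
      fun _ _ _ p hp => absurd hp (hS0 p)⟩
  | succ n ih =>
    intro S hS I b hDB hn
    have hIne : I.Nonempty := by
      rw [← Finset.card_pos]
      omega
    obtain ⟨f0, hf0, g0, hg0, hfg⟩ := hU S hS (hIne.mono hDB.sub)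
    -- the choice of the first step of the flag
    obtain ⟨i0, hi0, hB0⟩ : ∃ i0 ∈ I, ∑ p ∈ S, w p * b i0 p * g0 p ≠ 0 := by
      by_contra hcon
      push Not at hcon
      apply hfg
      have h1 : ∑ p ∈ S, w p * f0 p * g0 p = ∑ i ∈ I, f0 i * ∑ p ∈ S, w p * b i p * g0 p := by
        simp only [Finset.mul_sum]
        rw [Finset.sum_comm]
        apply Finset.sum_congr rfl
        intro p hp
        rw [hDB.span f0 hf0 p hp, Finset.mul_sum, Finset.sum_mul]
        apply Finset.sum_congr rfl
        intro i _
        ring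
      rw [h1]
      exact Finset.sum_eq_zero fun i hi => by rw [hcon i hi, mul_zero]
    set lam := b i0 with hlam
    set S' := S.filter (fun p => lam p = 0) with hS'
    set C := S.filter (fun p => ¬ lam p = 0) with hC
    have hSC : S' ∪ C = S := Finset.filter_union_filter_not_eq _ _
    have hdis : Disjoint S' C := Finset.disjoint_filter_filter_not _ _ _
    have hi0C : i0 ∉ S' := by
      intro h
      have h1 := (Finset.mem_filter.1 h).2
      rw [hlam, hDB.dual i0 hi0 i0 hi0, if_pos rfl] at h1
      exact one_ne_zero h1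
    have hDB' : DB V S' (I.erase i0) b := by
      refine ⟨?_, fun i hi => hDB.mem i (Finset.mem_of_mem_erase hi), ?_, ?_⟩
      · intro i hi
        have h1 := Finset.mem_erase.1 hi
        refine Finset.mem_filter.2 ⟨hDB.sub h1.2, ?_⟩
        rw [hlam, hDB.dual i0 hi0 i h1.2, if_neg h1.1.symm]
      · intro i hi j hj
        exact hDB.dual i (Finset.mem_of_mem_erase hi) j (Finset.mem_of_mem_erase hj)
      · intro f hf p hp
        have h1 := Finset.mem_filter.1 hp
        rw [hDB.span f hf p h1.1, ← Finset.add_sum_erase I _ hi0]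
        have h2 : b i0 p = 0 := h1.2
        rw [h2, mul_zero, zero_add]
    obtain ⟨l', hl', x', hx', hx'0, hnd⟩ := ih S' ((Finset.filter_subset _ _).trans hS)
      (I.erase i0) b hDB' (by rw [Finset.card_erase_of_mem hi0]; omega)
    -- the system on `S'`
    have hsys' : ∀ l : ι → K, (∀ v : ι → K, (∀ a ∈ I.erase i0, ∑ j ∈ I.erase i0,
        lead w l x' b S' a j * v j = 0) → ∀ j ∈ I.erase i0, v j = 0) ↔
        ∀ f ∈ V, (∀ g ∈ V, ∑ p ∈ S', w p * (l p / x' p) * f p * g p = 0) →
          ∀ p ∈ S', f p = 0 := by
      intro l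
      constructor
      · intro h f hf hfg p hp
        rw [hDB'.span f hf p hp]
        apply Finset.sum_eq_zero
        intro j hj
        have h2 := h f (by
          intro a ha
          have h3 := hfg (b a) (hDB'.mem a ha)
          rw [← h3]
          unfold lead
          simp only [Finset.sum_mul]
          rw [Finset.sum_comm]
          apply Finset.sum_congr rfl
          intro p hp
          conv_rhs => rw [hDB'.span f hf p hp]
          rw [Finset.mul_sum, Finset.sum_mul]
          apply Finset.sum_congr rfl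
          intro i _
          ring) j hj
        rw [h2, zero_mul]
      · intro h v hv j hj
        have hfV : (∑ i ∈ I.erase i0, v i • b i) ∈ V :=
          V.sum_mem fun i hi => V.smul_mem _ (hDB'.mem i hi)
        have happ : ∀ q, (∑ i ∈ I.erase i0, v i • b i) q = ∑ i ∈ I.erase i0, v i * b i q := by
          intro q
          simp [Finset.sum_apply]
        have h2 := h _ hfV (by
          intro g hg
          have h3 : ∑ p ∈ S', w p * (l p / x' p) * (∑ i ∈ I.erase i0, v i • b i) p * g p =
              ∑ a ∈ I.erase i0, g a * ∑ j ∈ I.erase i0, lead w l x' b S' a j * v j := by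
            simp only [lead, Finset.mul_sum, Finset.sum_mul]
            have h4 : ∀ p ∈ S', w p * (l p / x' p) * (∑ i ∈ I.erase i0, v i • b i) p * g p =
                ∑ a ∈ I.erase i0, ∑ j ∈ I.erase i0,
                  g a * (w p * (l p / x' p) * b a p * b j p * v j) := by
              intro p hp
              rw [happ, hDB'.span g hg p hp]
              rw [Finset.mul_sum, Finset.mul_sum]
              apply Finset.sum_congr rfl
              intro a _
              rw [Finset.sum_mul]
              apply Finset.sum_congr rfl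
              intro j _
              ring
            rw [Finset.sum_congr rfl h4, Finset.sum_comm]
            apply Finset.sum_congr rfl
            intro a _
            rw [Finset.sum_comm]
          rw [h3]
          exact Finset.sum_eq_zero fun a ha => by rw [hv a ha, mul_zero]) j (hDB'.sub hj)
        rw [happ, Finset.sum_eq_single_of_mem j hj] at h2
        · rwa [hDB'.dual j hj j hj, if_pos rfl, mul_one] at h2
        · intro i hi hij
          rw [hDB'.dual i hi j hj, if_neg hij, mul_zero]
    -- the choice of `l`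
    obtain ⟨l, hl, hlB, hlnd⟩ : ∃ l ∈ V, ∑ p ∈ S, w p * lam p * l p ≠ 0 ∧
        ∀ v : ι → K, (∀ a ∈ I.erase i0, ∑ j ∈ I.erase i0,
        lead w l x' b S' a j * v j = 0) → ∀ j ∈ I.erase i0, v j = 0 := by
      obtain ⟨Q, hQ, hQ'⟩ := pert (I.erase i0)
        (fun a j => Polynomial.C (lead w l' x' b S' a j) +
          X * Polynomial.C (lead w g0 x' b S' a j)) (by
          intro v hv
          apply (hsys' l').2 hnd v
          intro a ha
          have := hv a ha
          simpa using this)
      have hR : (Polynomial.C (∑ p ∈ S, w p * lam p * l' p) +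
          X * Polynomial.C (∑ p ∈ S, w p * lam p * g0 p) : K[X]) ≠ 0 := by
        intro h
        apply hB0
        have h1 := congrArg (fun q => q.coeff 1) h
        simpa using h1
      obtain ⟨t, ht⟩ := exists_nonroot (mul_ne_zero hQ hR)
      rw [eval_mul] at ht
      refine ⟨l' + t • g0, V.add_mem hl' (V.smul_mem _ hg0), ?_, ?_⟩
      · have h1 := right_ne_zero_of_mul ht
        simp only [eval_add, eval_mul, eval_C, eval_X] at h1
        intro h2
        apply h1
        rw [← h2, Finset.mul_sum, ← Finset.sum_add_distrib]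
        apply Finset.sum_congr rfl
        intro p _
        simp only [Pi.add_apply, Pi.smul_apply, smul_eq_mul]
        ring
      · have h1 := hQ' t (left_ne_zero_of_mul ht)
        intro v hv
        apply h1 v
        intro a ha
        rw [← hv a ha]
        apply Finset.sum_congr rfl
        intro j _
        congr 1
        simp only [eval_add, eval_mul, eval_C, eval_X, lead, Finset.mul_sum]
        rw [← Finset.sum_add_distrib]
        apply Finset.sum_congr rfl
        intro p _
        simp only [Pi.add_apply, Pi.smul_apply, smul_eq_mul]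
        ring
    -- the choice of `x`
    have hleadi0 : ∀ a, lead w l x' b S' a i0 = 0 := by
      intro a
      apply Finset.sum_eq_zero
      intro p hp
      have : b i0 p = 0 := (Finset.mem_filter.1 hp).2
      rw [this, mul_zero]
    have hleadi0' : ∀ j, lead w l x' b S' i0 j = 0 := by
      intro j
      apply Finset.sum_eq_zero
      intro p hp
      have : b i0 p = 0 := (Finset.mem_filter.1 hp).2
      rw [this, mul_zero, zero_mul]
    have hprod0 : ∏ q ∈ C, lam q ≠ 0 :=
      Finset.prod_ne_zero_iff.2 fun q hq => (Finset.mem_filter.1 hq).2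
    obtain ⟨Q, hQ, hQ'⟩ := pert I (fun a j => if a = i0 then rest w l lam x' b C a j else
        sys w l lam x' b S' C a j) (by
      intro v hv
      have h1 : ∀ j ∈ I.erase i0, v j = 0 := by
        apply hlnd v
        intro a ha
        have h2 := hv a (Finset.mem_of_mem_erase ha)
        simp only [if_neg (Finset.ne_of_mem_erase ha)] at h2
        have h3 : ∀ j, (sys w l lam x' b S' C a j).eval 0 =
            (∏ q ∈ C, lam q) * lead w l x' b S' a j := by
          intro j
          simp [sys, eval_prod, den_eval]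
        simp only [h3] at h2
        rw [← Finset.add_sum_erase I _ hi0, hleadi0, mul_zero, zero_mul, zero_add] at h2
        have h4 : (∏ q ∈ C, lam q) * ∑ j ∈ I.erase i0, lead w l x' b S' a j * v j = 0 := by
          rw [← h2, Finset.mul_sum]
          apply Finset.sum_congr rfl
          intro j _
          ring
        exact (mul_eq_zero.1 h4).resolve_left hprod0
      have h5 := hv i0 hi0
      simp only [if_true] at h5
      rw [← Finset.add_sum_erase I _ hi0, Finset.sum_eq_zero (s := I.erase i0)
        (fun j hj => by rw [h1 j hj, mul_zero]), add_zero] at h5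
      have h6 : (rest w l lam x' b C i0 i0).eval 0 =
          (∏ q ∈ C, lam q) * ∑ p ∈ S, w p * lam p * l p := by
        simp only [rest, eval_finsetSum, eval_mul, eval_C, eval_prod, den_eval, zero_mul,
          add_zero]
        rw [← hSC, Finset.sum_union hdis, Finset.sum_eq_zero (s := S') (fun p hp => by
          have : lam p = 0 := (Finset.mem_filter.1 hp).2
          rw [this, mul_zero, zero_mul]), zero_add, Finset.mul_sum]
        apply Finset.sum_congr rfl
        intro p hp
        rw [← Finset.mul_prod_erase C (fun q => lam q) hp, hlam]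
        ring
      rw [h6] at h5
      have h7 : v i0 = 0 := (mul_eq_zero.1 h5).resolve_left (mul_ne_zero hprod0 hlB)
      intro j hj
      by_cases hji : j = i0
      · rw [hji, h7]
      · exact h1 j (Finset.mem_erase.2 ⟨hji, hj⟩))
    have hpi : (∏ q ∈ C, den lam x' q) ≠ 0 := by
      intro h
      apply hprod0
      have := congrArg (fun q => q.eval 0) h
      simpa [eval_prod, den_eval] using this
    obtain ⟨t, ht⟩ := exists_nonroot (mul_ne_zero (mul_ne_zero hQ hpi) X_ne_zero)
    rw [eval_mul, eval_mul, eval_X, eval_prod] at ht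
    simp only [den_eval] at ht
    have ht0 : t ≠ 0 := right_ne_zero_of_mul ht
    have htp : ∏ q ∈ C, (lam q + t * x' q) ≠ 0 := right_ne_zero_of_mul (left_ne_zero_of_mul ht)
    have htC : ∀ p ∈ C, lam p + t * x' p ≠ 0 := Finset.prod_ne_zero_iff.1 htp
    have hS'0 : ∀ p ∈ S', lam p = 0 := fun p hp => (Finset.mem_filter.1 hp).2
    refine ⟨l, hl, lam + t • x', V.add_mem (hDB.mem i0 hi0) (V.smul_mem _ hx'), ?_, ?_⟩
    · intro p hp
      simp only [Pi.add_apply, Pi.smul_apply, smul_eq_mul]
      rw [← hSC, Finset.mem_union] at hp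
      rcases hp with hp | hp
      · rw [hS'0 p hp, zero_add]
        exact mul_ne_zero ht0 (hx'0 p hp)
      · exact htC p hp
    · intro f hf hfg p hp
      have h1 : ∀ j ∈ I, f j = 0 := by
        apply hQ' t (left_ne_zero_of_mul (left_ne_zero_of_mul ht)) f
        intro a ha
        have h2 := sys_eval w l lam x' b S' C ht0 htC hS'0 hdis a I f f (by
          intro p hp
          rw [hSC] at hp
          exact hDB.span f hf p hp)
        have h3 := hfg (b a) (hDB.mem a ha)
        simp only [Pi.add_apply, Pi.smul_apply, smul_eq_mul] at h3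
        rw [hSC, h3, mul_zero] at h2
        by_cases hai : a = i0
        · subst hai
          simp only [if_true]
          have h4 : ∀ j, (sys w l lam x' b S' C a j).eval t =
              t * (rest w l lam x' b C a j).eval t := by
            intro j
            simp only [sys, eval_add, eval_mul, eval_C, eval_X, hleadi0', mul_zero, zero_add]
          simp only [h4, mul_assoc] at h2
          rw [← Finset.mul_sum] at h2
          exact (mul_eq_zero.1 h2).resolve_left ht0
        · simp only [if_neg hai]
          exact h2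
      rw [hDB.span f hf p hp]
      exact Finset.sum_eq_zero fun j hj => by rw [h1 j hj, zero_mul]

/-- **Good pairs exist.** -/
theorem good_pair [Infinite K] [Fintype ι] (w : ι → K) (hV : ∀ p, ∃ f ∈ V, f p ≠ 0)
    (hU : ∀ S : Finset ι, S.Nonempty → S ≠ univ →
      ∃ f ∈ V, ∃ g ∈ V, ∑ p ∈ S, w p * f p * g p ≠ 0)
    (hiso : ∀ f ∈ V, ∀ g ∈ V, ∑ p, w p * f p * g p = 0) :
    ∃ l ∈ V, ∃ x ∈ V, (∀ p, x p ≠ 0) ∧ ∀ f ∈ V, ∀ g ∈ V, (∀ p, f p * l p = g p * x p) →
      ∃ α : K, ∀ p, f p = α * x p := by
  classical
  obtain ⟨I, b, hDB⟩ := exists_db V (univ : Finset ι)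
  rcases I.eq_empty_or_nonempty with hI | ⟨i0, hi0⟩
  · subst hI
    have hS0 : ∀ p : ι, False := by
      intro p
      obtain ⟨f, hf, hfp⟩ := hV p
      apply hfp
      rw [hDB.span f hf p (mem_univ _), Finset.sum_empty]
    exact ⟨0, V.zero_mem, 0, V.zero_mem, fun p => (hS0 p).elim,
      fun _ _ _ _ _ => ⟨0, fun p => (hS0 p).elim⟩⟩
  set lam := b i0 with hlam
  set S' := (univ : Finset ι).filter (fun p => lam p = 0) with hS'
  set C := (univ : Finset ι).filter (fun p => ¬ lam p = 0) with hC
  have hSC : S' ∪ C = univ := Finset.filter_union_filter_not_eq _ _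
  have hdis : Disjoint S' C := Finset.disjoint_filter_filter_not _ _ _
  have hi0C : i0 ∉ S' := by
    intro h
    have h1 := (Finset.mem_filter.1 h).2
    rw [hlam, hDB.dual i0 hi0 i0 hi0, if_pos rfl] at h1
    exact one_ne_zero h1
  have hDB' : DB V S' (I.erase i0) b := by
    refine ⟨?_, fun i hi => hDB.mem i (Finset.mem_of_mem_erase hi), ?_, ?_⟩
    · intro i hi
      have h1 := Finset.mem_erase.1 hi
      refine Finset.mem_filter.2 ⟨hDB.sub h1.2, ?_⟩
      rw [hlam, hDB.dual i0 hi0 i h1.2, if_neg h1.1.symm]
    · intro i hi j hj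
      exact hDB.dual i (Finset.mem_of_mem_erase hi) j (Finset.mem_of_mem_erase hj)
    · intro f hf p hp
      have h1 := Finset.mem_filter.1 hp
      rw [hDB.span f hf p h1.1, ← Finset.add_sum_erase I _ hi0]
      have h2 : b i0 p = 0 := h1.2
      rw [h2, mul_zero, zero_add]
  obtain ⟨l, hl, x', hx', hx'0, hnd⟩ := main_flag w hV S' (by
    intro S hS hne
    apply hU S hne
    rintro rfl
    exact hi0C (hS (mem_univ _))) _ S' (Finset.Subset.refl _) (I.erase i0) b hDB' rfl
  have hprod0 : ∏ q ∈ C, lam q ≠ 0 :=
    Finset.prod_ne_zero_iff.2 fun q hq => (Finset.mem_filter.1 hq).2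
  obtain ⟨Q, hQ, hQ'⟩ := pert (I.erase i0) (sys w l lam x' b S' C) (by
    intro v hv j hj
    have hfV : (∑ i ∈ I.erase i0, v i • b i) ∈ V :=
      V.sum_mem fun i hi => V.smul_mem _ (hDB'.mem i hi)
    have happ : ∀ q, (∑ i ∈ I.erase i0, v i • b i) q = ∑ i ∈ I.erase i0, v i * b i q := by
      intro q
      simp [Finset.sum_apply]
    have h3 : ∀ a j, (sys w l lam x' b S' C a j).eval 0 =
        (∏ q ∈ C, lam q) * lead w l x' b S' a j := by
      intro a j
      simp [sys, eval_prod, den_eval]
    have hv2 : ∀ a ∈ I.erase i0, ∑ j ∈ I.erase i0, lead w l x' b S' a j * v j = 0 := by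
      intro a ha
      have h2 := hv a ha
      simp only [h3] at h2
      have h4 : (∏ q ∈ C, lam q) * ∑ j ∈ I.erase i0, lead w l x' b S' a j * v j = 0 := by
        rw [← h2, Finset.mul_sum]
        apply Finset.sum_congr rfl
        intro j _
        ring
      exact (mul_eq_zero.1 h4).resolve_left hprod0
    have h2 := hnd _ hfV (by
      intro g hg
      have h3 : ∑ p ∈ S', w p * (l p / x' p) * (∑ i ∈ I.erase i0, v i • b i) p * g p =
          ∑ a ∈ I.erase i0, g a * ∑ j ∈ I.erase i0, lead w l x' b S' a j * v j := by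
        simp only [lead, Finset.mul_sum, Finset.sum_mul]
        have h4 : ∀ p ∈ S', w p * (l p / x' p) * (∑ i ∈ I.erase i0, v i • b i) p * g p =
            ∑ a ∈ I.erase i0, ∑ j ∈ I.erase i0,
              g a * (w p * (l p / x' p) * b a p * b j p * v j) := by
          intro p hp
          rw [happ, hDB'.span g hg p hp]
          rw [Finset.mul_sum, Finset.mul_sum]
          apply Finset.sum_congr rfl
          intro a _
          rw [Finset.sum_mul]
          apply Finset.sum_congr rfl
          intro j _
          ring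
        rw [Finset.sum_congr rfl h4, Finset.sum_comm]
        apply Finset.sum_congr rfl
        intro a _
        rw [Finset.sum_comm]
      rw [h3]
      exact Finset.sum_eq_zero fun a ha => by rw [hv2 a ha, mul_zero]) j (hDB'.sub hj)
    rw [happ, Finset.sum_eq_single_of_mem j hj] at h2
    · rwa [hDB'.dual j hj j hj, if_pos rfl, mul_one] at h2
    · intro i hi hij
      rw [hDB'.dual i hi j hj, if_neg hij, mul_zero])
  have hpi : (∏ q ∈ C, den lam x' q) ≠ 0 := by
    intro h
    apply hprod0
    have := congrArg (fun q => q.eval 0) h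
    simpa [eval_prod, den_eval] using this
  obtain ⟨t, ht⟩ := exists_nonroot (mul_ne_zero (mul_ne_zero hQ hpi) X_ne_zero)
  rw [eval_mul, eval_mul, eval_X, eval_prod] at ht
  simp only [den_eval] at ht
  have ht0 : t ≠ 0 := right_ne_zero_of_mul ht
  have htp : ∏ q ∈ C, (lam q + t * x' q) ≠ 0 := right_ne_zero_of_mul (left_ne_zero_of_mul ht)
  have htC : ∀ p ∈ C, lam p + t * x' p ≠ 0 := Finset.prod_ne_zero_iff.1 htp
  have hS'0 : ∀ p ∈ S', lam p = 0 := fun p hp => (Finset.mem_filter.1 hp).2
  have hxV : lam + t • x' ∈ V := V.add_mem (hDB.mem i0 hi0) (V.smul_mem _ hx')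
  have hx0 : ∀ p, (lam + t • x') p ≠ 0 := by
    intro p
    simp only [Pi.add_apply, Pi.smul_apply, smul_eq_mul]
    have hp : p ∈ S' ∪ C := by rw [hSC]; exact mem_univ _
    rcases Finset.mem_union.1 hp with hp | hp
    · rw [hS'0 p hp, zero_add]
      exact mul_ne_zero ht0 (hx'0 p hp)
    · exact htC p hp
  refine ⟨l, hl, lam + t • x', hxV, hx0, ?_⟩
  intro f hf g hg hfg
  set x : ι → K := lam + t • x' with hx
  set α := f i0 / x i0 with hα
  refine ⟨α, ?_⟩
  set f' : ι → K := f - α • x with hf'
  set g' : ι → K := g - α • l with hg'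
  have hf'V : f' ∈ V := V.sub_mem hf (V.smul_mem _ hxV)
  have hg'V : g' ∈ V := V.sub_mem hg (V.smul_mem _ hl)
  have hfg' : ∀ p, f' p * l p = g' p * x p := by
    intro p
    have := hfg p
    simp only [hf', hg', Pi.sub_apply, Pi.smul_apply, smul_eq_mul]
    linear_combination this
  have hf'0 : f' i0 = 0 := by
    simp only [hf', Pi.sub_apply, Pi.smul_apply, smul_eq_mul, hα]
    rw [div_mul_cancel₀ _ (hx0 i0), sub_self]
  have hspan' : ∀ p, f' p = ∑ j ∈ I.erase i0, f' j * b j p := by
    intro p
    rw [hDB.span f' hf'V p (mem_univ _), ← Finset.add_sum_erase I _ hi0, hf'0, zero_mul,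
      zero_add]
  have h1 : ∀ j ∈ I.erase i0, f' j = 0 := by
    apply hQ' t (left_ne_zero_of_mul (left_ne_zero_of_mul ht)) f'
    intro a ha
    have h2 := sys_eval w l lam x' b S' C ht0 htC hS'0 hdis a (I.erase i0) f' f' (by
      intro p _
      exact hspan' p)
    rw [h2, hSC]
    have h3 : ∑ p, w p * (l p / (lam p + t * x' p)) * f' p * b a p =
        ∑ p, w p * g' p * b a p := by
      apply Finset.sum_congr rfl
      intro p _
      have h4 := hfg' p
      have h5 := hx0 p
      have h6 : x p = lam p + t * x' p := rfl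
      rw [← h6]
      have h7 : l p / x p * f' p = g' p := by
        rw [div_mul_eq_mul_div, div_eq_iff h5, ← h4, mul_comm]
      calc w p * (l p / x p) * f' p * b a p = w p * (l p / x p * f' p) * b a p := by ring
        _ = w p * g' p * b a p := by rw [h7]
    rw [h3, hiso g' hg'V (b a) (hDB.mem a (Finset.mem_of_mem_erase ha)), mul_zero]
  intro p
  have h2 : f' p = 0 := by
    rw [hspan' p]
    exact Finset.sum_eq_zero fun j hj => by rw [h1 j hj, zero_mul]
  simp only [hf', Pi.sub_apply, Pi.smul_apply, smul_eq_mul] at h2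
  exact sub_eq_zero.1 h2

end Pool.Agent.TH274.FL
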