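import Mathlib

/-!
# Systems of symmetric forms on a space of dimension at most two
-/

open Finset Polynomial Module

namespace Pool.Agent.TH274.FL

variable {K : Type*} [Field K] {ι : Type*}

/-- The form `(f, g) ↦ ∑_{p ∈ C} d_p h_p l_p f_p g_p`. -/
def qf (d : ι → K) (C : Finset ι) (h l f g : ι → K) : K :=
  ∑ p ∈ C, d p * h p * l p * f p * g p

section

variable (d : ι → K) (C : Finset ι)

lemma qf_symm (h l f g : ι → K) : qf d C h l f g = qf d C h l g f := by
  unfold qf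
  exact Finset.sum_congr rfl fun p _ => by ring

lemma qf_add (h l f f' g : ι → K) : qf d C h l (f + f') g = qf d C h l f g + qf d C h l f' g := by
  unfold qf
  rw [← Finset.sum_add_distrib]
  exact Finset.sum_congr rfl fun p _ => by rw [Pi.add_apply]; ring

lemma qf_smul (h l f g : ι → K) (a : K) : qf d C h l (a • f) g = a * qf d C h l f g := by
  unfold qf
  rw [Finset.mul_sum]
  exact Finset.sum_congr rfl fun p _ => by rw [Pi.smul_apply, smul_eq_mul]; ring

lemma qf_pert (h h' l l' f g : ι → K) (s : K) : qf d C (h + s • h') (l + s • l') f g =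
    qf d C h l f g + s * qf d C h l' f g + s * qf d C h' l f g + s ^ 2 * qf d C h' l' f g := by
  unfold qf
  rw [Finset.mul_sum, Finset.mul_sum, Finset.mul_sum, ← Finset.sum_add_distrib,
    ← Finset.sum_add_distrib, ← Finset.sum_add_distrib]
  exact Finset.sum_congr rfl fun p _ => by
    simp only [Pi.add_apply, Pi.smul_apply, smul_eq_mul]
    ring

end

lemma poly_zero [Infinite K] {α β γ : K} (h : ∀ s : K, α * s ^ 2 + β * s ^ 3 + γ * s ^ 4 = 0) :
    α = 0 ∧ β = 0 ∧ γ = 0 := by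
  have hP : (Polynomial.C α * X ^ 2 + Polynomial.C β * X ^ 3 + Polynomial.C γ * X ^ 4 : K[X]) = 0 := by
    apply Polynomial.funext
    intro s
    simpa using h s
  refine ⟨?_, ?_, ?_⟩
  · have := congrArg (fun q => q.coeff 2) hP
    simpa [coeff_X_pow] using this
  · have := congrArg (fun q => q.coeff 3) hP
    simpa [coeff_X_pow] using this
  · have := congrArg (fun q => q.coeff 4) hP
    simpa [coeff_X_pow] using this

variable [Fintype ι]

/-- A system of symmetric forms without a common kernel on a space of dimension at most two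
contains a nondegenerate form. -/
theorem exists_nondeg [Infinite K] (h2 : (2 : K) ≠ 0) {A B Λ J : Submodule K (ι → K)}
    (d : ι → K) (C : Finset ι) (hΛJ : Λ ≤ J) (hdim : finrank K J ≤ finrank K Λ + 2)
    (hΛ : ∀ h ∈ A, ∀ l ∈ B, ∀ e ∈ Λ, ∀ g ∈ J, qf d C h l e g = 0)
    (hcom : ∀ f ∈ J, (∀ h ∈ A, ∀ l ∈ B, ∀ g ∈ J, qf d C h l f g = 0) → f ∈ Λ) :
    ∃ h ∈ A, ∃ l ∈ B, ∀ f ∈ J, (∀ g ∈ J, qf d C h l f g = 0) → f ∈ Λ := by
  by_contra hcon
  push Not at hcon
  obtain ⟨f1, hf1, -, hf1Λ⟩ := hcon 0 A.zero_mem 0 B.zero_mem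
  obtain ⟨h0, hh0, l0, hl0, g1, hg1, hq1⟩ : ∃ h0 ∈ A, ∃ l0 ∈ B, ∃ g1 ∈ J,
      qf d C h0 l0 f1 g1 ≠ 0 := by
    by_contra hno
    push Not at hno
    exact hf1Λ (hcom f1 hf1 hno)
  obtain ⟨w, hw, hqw⟩ : ∃ w ∈ J, qf d C h0 l0 w w ≠ 0 := by
    by_contra hno
    push Not at hno
    have e1 := hno (f1 + g1) (J.add_mem hf1 hg1)
    rw [qf_add, qf_symm d C h0 l0 f1, qf_symm d C h0 l0 g1, qf_add, qf_add, hno f1 hf1,
      hno g1 hg1, qf_symm d C h0 l0 g1 f1] at e1
    apply hq1
    have e2 : (2 : K) * qf d C h0 l0 f1 g1 = 0 := by linear_combination e1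
    exact (mul_eq_zero.1 e2).resolve_left h2
  obtain ⟨v, hv, hvk, hvΛ⟩ := hcon h0 hh0 l0 hl0
  -- `J` is spanned by `Λ`, `v` and `w`
  set M1 := Λ ⊔ Submodule.span K {v} with hM1
  set M2 := M1 ⊔ Submodule.span K {w} with hM2
  have hvM1 : v ∈ M1 := Submodule.mem_sup_right (Submodule.mem_span_singleton_self v)
  have hM1J : M1 ≤ J := sup_le hΛJ ((Submodule.span_singleton_le_iff_mem _ _).2 hv)
  have hM2J : M2 ≤ J := sup_le hM1J ((Submodule.span_singleton_le_iff_mem _ _).2 hw)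
  have hlt1 : Λ < M1 := lt_of_le_of_ne le_sup_left (fun h => hvΛ (by rw [h]; exact hvM1))
  have hwM1 : w ∉ M1 := by
    intro h
    obtain ⟨e, he, y, hy, hey⟩ := Submodule.mem_sup.1 h
    obtain ⟨a, rfl⟩ := Submodule.mem_span_singleton.1 hy
    apply hqw
    have e1 : qf d C h0 l0 (e + a • v) w = 0 := by
      rw [qf_add, qf_smul, hΛ h0 hh0 l0 hl0 e he w hw, hvk w hw, mul_zero, add_zero]
    rwa [hey] at e1
  have hlt2 : M1 < M2 := lt_of_le_of_ne le_sup_left (fun h => hwM1 (by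
    rw [h]
    exact Submodule.mem_sup_right (Submodule.mem_span_singleton_self w)))
  have hJ : M2 = J := by
    apply Submodule.eq_of_le_of_finrank_le hM2J
    have e1 := Submodule.finrank_lt_finrank_of_lt hlt1
    have e2 := Submodule.finrank_lt_finrank_of_lt hlt2
    omega
  have hspan : ∀ f ∈ J, ∃ e ∈ Λ, ∃ a b : K, f = e + a • v + b • w := by
    intro f hf
    rw [← hJ] at hf
    obtain ⟨m, hm, y, hy, hey⟩ := Submodule.mem_sup.1 hf
    obtain ⟨e, he, z, hz, hez⟩ := Submodule.mem_sup.1 hm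
    obtain ⟨a, rfl⟩ := Submodule.mem_span_singleton.1 hz
    obtain ⟨b, rfl⟩ := Submodule.mem_span_singleton.1 hy
    exact ⟨e, he, a, b, by rw [← hey, ← hez]⟩
  -- all forms are degenerate
  have hdet : ∀ h ∈ A, ∀ l ∈ B, qf d C h l v v * qf d C h l w w = qf d C h l v w ^ 2 := by
    intro h hh l hl
    obtain ⟨f, hf, hfk, hfΛ⟩ := hcon h hh l hl
    obtain ⟨e, he, a, b, rfl⟩ := hspan f hf
    have e1 := hfk v hv
    have e2 := hfk w hw
    rw [qf_add, qf_add, qf_smul, qf_smul, hΛ h hh l hl e he v hv, zero_add,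
      qf_symm d C h l w v] at e1
    rw [qf_add, qf_add, qf_smul, qf_smul, hΛ h hh l hl e he w hw, zero_add] at e2
    by_cases ha : a = 0
    · by_cases hb : b = 0
      · exfalso
        apply hfΛ
        rw [ha, hb, zero_smul, zero_smul, add_zero, add_zero]
        exact he
      · rw [ha, zero_mul, zero_add] at e1 e2
        rw [(mul_eq_zero.1 e1).resolve_left hb, (mul_eq_zero.1 e2).resolve_left hb]
        ring
    · have e3 : a * (qf d C h l v v * qf d C h l w w - qf d C h l v w ^ 2) = 0 := by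
        linear_combination qf d C h l w w * e1 - qf d C h l v w * e2
      exact sub_eq_zero.1 ((mul_eq_zero.1 e3).resolve_left ha)
  have hvv : qf d C h0 l0 v v = 0 := hvk v hv
  have hvw : qf d C h0 l0 v w = 0 := hvk w hw
  -- first stage
  have st1 : ∀ l ∈ B, qf d C h0 l v v = 0 ∧ qf d C h0 l v w = 0 := by
    intro l hl
    have e0 : ∀ f g, qf d C 0 l f g = 0 := fun f g => by simp [qf]
    have e0' : ∀ f g, qf d C 0 l0 f g = 0 := fun f g => by simp [qf]
    have h3 : ∀ s : K, (qf d C h0 l v v * qf d C h0 l0 w w) * s ^ 2 +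
        (qf d C h0 l v v * qf d C h0 l w w - qf d C h0 l v w ^ 2) * s ^ 3 + 0 * s ^ 4 = 0 := by
      intro s
      have h4 := hdet (h0 + s • (0 : ι → K)) (by rw [smul_zero, add_zero]; exact hh0)
        (l0 + s • l) (B.add_mem hl0 (B.smul_mem _ hl))
      rw [qf_pert, qf_pert, qf_pert, hvv, hvw, e0, e0, e0, e0', e0', e0'] at h4
      linear_combination s * h4
    obtain ⟨h4, h5, -⟩ := poly_zero h3
    have h6 := (mul_eq_zero.1 h4).resolve_right hqw
    rw [h6, zero_mul, zero_sub, neg_eq_zero] at h5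
    exact ⟨h6, pow_eq_zero_iff (two_ne_zero) |>.1 h5⟩
  have st1' : ∀ h ∈ A, qf d C h l0 v v = 0 ∧ qf d C h l0 v w = 0 := by
    intro h hh
    have e0 : ∀ f g, qf d C h 0 f g = 0 := fun f g => by simp [qf]
    have e0' : ∀ f g, qf d C h0 0 f g = 0 := fun f g => by simp [qf]
    have h3 : ∀ s : K, (qf d C h l0 v v * qf d C h0 l0 w w) * s ^ 2 +
        (qf d C h l0 v v * qf d C h l0 w w - qf d C h l0 v w ^ 2) * s ^ 3 + 0 * s ^ 4 = 0 := by
      intro s
      have h4 := hdet (h0 + s • h) (A.add_mem hh0 (A.smul_mem _ hh))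
        (l0 + s • (0 : ι → K)) (by rw [smul_zero, add_zero]; exact hl0)
      rw [qf_pert, qf_pert, qf_pert, hvv, hvw, e0, e0, e0, e0', e0', e0'] at h4
      linear_combination s * h4
    obtain ⟨h4, h5, -⟩ := poly_zero h3
    have h6 := (mul_eq_zero.1 h4).resolve_right hqw
    rw [h6, zero_mul, zero_sub, neg_eq_zero] at h5
    exact ⟨h6, pow_eq_zero_iff (two_ne_zero) |>.1 h5⟩
  -- second stage
  apply hvΛ
  apply hcom v hv
  intro h hh l hl g hg
  have h3 : ∀ s : K, (qf d C h l v v * qf d C h0 l0 w w) * s ^ 2 +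
      (qf d C h l v v * (qf d C h0 l w w + qf d C h l0 w w)) * s ^ 3 +
      (qf d C h l v v * qf d C h l w w - qf d C h l v w ^ 2) * s ^ 4 = 0 := by
    intro s
    have h4 := hdet (h0 + s • h) (A.add_mem hh0 (A.smul_mem _ hh))
      (l0 + s • l) (B.add_mem hl0 (B.smul_mem _ hl))
    rw [qf_pert, qf_pert, qf_pert, hvv, hvw, (st1 l hl).1, (st1 l hl).2, (st1' h hh).1,
      (st1' h hh).2] at h4
    linear_combination h4
  obtain ⟨h4, -, h5⟩ := poly_zero h3
  have h6 := (mul_eq_zero.1 h4).resolve_right hqw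
  rw [h6, zero_mul, zero_sub, neg_eq_zero] at h5
  have h7 : qf d C h l v w = 0 := pow_eq_zero_iff (two_ne_zero) |>.1 h5
  obtain ⟨e, he, a, b, rfl⟩ := hspan g hg
  rw [qf_symm, qf_add, qf_add, qf_smul, qf_smul, hΛ h hh l hl e he v hv, h6,
    qf_symm d C h l w v, h7]
  ring

end Pool.Agent.TH274.FL
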