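import Mathlib

/-!
# Perturbation of nondegenerate systems and dual bases of function spaces
-/

open Finset Polynomial

namespace Pool.Agent.TH274.FL

variable {K : Type*} [Field K] {ι : Type*} [DecidableEq ι]

/-- A polynomial family of square systems that is nondegenerate at `0` is nondegenerate away from
the zeros of a polynomial. -/
lemma pert (I : Finset ι) (N : ι → ι → K[X])
    (h0 : ∀ v : ι → K, (∀ a ∈ I, ∑ j ∈ I, (N a j).eval 0 * v j = 0) → ∀ j ∈ I, v j = 0) :
    ∃ Q : K[X], Q ≠ 0 ∧ ∀ t : K, Q.eval t ≠ 0 → ∀ v : ι → K,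
      (∀ a ∈ I, ∑ j ∈ I, (N a j).eval t * v j = 0) → ∀ j ∈ I, v j = 0 := by
  classical
  let M : Matrix I I K[X] := fun a j => N a j
  have hdet : ∀ t : K, M.det.eval t = (M.map (fun q => q.eval t)).det := by
    intro t
    have := RingHom.map_det (evalRingHom t) M
    simpa [RingHom.mapMatrix_apply] using this
  have key : ∀ t : K, M.det.eval t ≠ 0 ↔ ∀ v : ι → K,
      (∀ a ∈ I, ∑ j ∈ I, (N a j).eval t * v j = 0) → ∀ j ∈ I, v j = 0 := by
    intro t
    rw [hdet t, ne_eq, ← Matrix.exists_mulVec_eq_zero_iff]
    constructor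
    · intro h v hv j hj
      by_contra hne
      apply h
      refine ⟨fun i => v i, ?_, ?_⟩
      · intro h1
        exact hne (congrFun h1 ⟨j, hj⟩)
      · funext a
        have h2 := hv a a.2
        rw [← Finset.sum_coe_sort] at h2
        exact h2
    · rintro h ⟨v, hv, hv2⟩
      apply hv
      let v' : ι → K := fun i => if hi : i ∈ I then v ⟨i, hi⟩ else 0
      have h1 : ∀ i : I, v' i = v i := by
        intro i
        simp [v']
      have h2 := h v' (by
        intro a ha
        rw [← Finset.sum_coe_sort]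
        have h3 := congrFun hv2 ⟨a, ha⟩
        simp only [h1]
        exact h3)
      funext i
      rw [← h1 i]
      exact h2 i i.2
  refine ⟨M.det, ?_, fun t ht => (key t).1 ht⟩
  intro h
  have := (key 0).2 h0
  rw [h, eval_zero] at this
  exact this rfl

/-- Common non-root. -/
lemma exists_nonroot [Infinite K] {Q : K[X]} (hQ : Q ≠ 0) : ∃ t : K, Q.eval t ≠ 0 := by
  by_contra h
  push Not at h
  exact hQ (Polynomial.funext (fun r => by rw [h r, eval_zero]))

/-- A dual basis of the restriction of `V` to `S`: points `I ⊆ S` and functions `b i ∈ V`. -/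
structure DB (V : Submodule K (ι → K)) (S I : Finset ι) (b : ι → ι → K) : Prop where
  sub : I ⊆ S
  mem : ∀ i ∈ I, b i ∈ V
  dual : ∀ i ∈ I, ∀ j ∈ I, b i j = if i = j then 1 else 0
  span : ∀ f ∈ V, ∀ p ∈ S, f p = ∑ i ∈ I, f i * b i p

lemma exists_db (V : Submodule K (ι → K)) (S : Finset ι) : ∃ I b, DB V S I b := by
  classical
  let P : Finset ι → Prop := fun I => ∃ b : ι → ι → K, (∀ i ∈ I, b i ∈ V) ∧
    ∀ i ∈ I, ∀ j ∈ I, b i j = if i = j then 1 else 0
  have hne : (S.powerset.filter P).Nonempty :=
    ⟨∅, by simp [P]⟩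
  obtain ⟨I, hI, hmax⟩ := Finset.exists_max_image _ Finset.card hne
  rw [Finset.mem_filter, Finset.mem_powerset] at hI
  obtain ⟨hIS, b, hb1, hb2⟩ := hI
  refine ⟨I, b, hIS, hb1, hb2, ?_⟩
  intro f hf p hp
  by_contra hcon
  set g : ι → K := f - ∑ i ∈ I, f i • b i with hg
  have hgV : g ∈ V := V.sub_mem hf (V.sum_mem fun i hi => V.smul_mem _ (hb1 i hi))
  have hgapp : ∀ q, g q = f q - ∑ i ∈ I, f i * b i q := by
    intro q
    simp [hg, Finset.sum_apply]
  have hgp : g p ≠ 0 := by
    rw [hgapp]
    exact sub_ne_zero.2 hcon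
  have hgI : ∀ j ∈ I, g j = 0 := by
    intro j hj
    rw [hgapp, Finset.sum_eq_single_of_mem j hj]
    · rw [hb2 j hj j hj, if_pos rfl, mul_one, sub_self]
    · intro i hi hij
      rw [hb2 i hi j hj, if_neg hij, mul_zero]
  have hpI : p ∉ I := fun h => hgp (hgI p h)
  let u : ι → K := (g p)⁻¹ • g
  have hu : u ∈ V := V.smul_mem _ hgV
  have hup : u p = 1 := by
    simp [u, hgp]
  have huI : ∀ j ∈ I, u j = 0 := by
    intro j hj
    simp [u, hgI j hj]
  have hP : P (insert p I) := by
    refine ⟨fun i => if i = p then u else b i - b i p • u, ?_, ?_⟩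
    · intro i hi
      by_cases h : i = p
      · simp only [h, if_true]
        exact hu
      · simp only [h, if_false]
        exact V.sub_mem (hb1 i ((Finset.mem_insert.1 hi).resolve_left h)) (V.smul_mem _ hu)
    · intro i hi j hj
      by_cases h : i = p
      · subst h
        simp only [if_true]
        by_cases h2 : i = j
        · subst h2
          rw [if_pos rfl, hup]
        · rw [if_neg h2]
          exact huI j ((Finset.mem_insert.1 hj).resolve_left (fun h3 => h2 h3.symm))
      · have hi' := (Finset.mem_insert.1 hi).resolve_left h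
        simp only [h, if_false]
        by_cases h2 : j = p
        · subst h2
          rw [if_neg h]
          simp [hup]
        · have hj' := (Finset.mem_insert.1 hj).resolve_left h2
          simp [huI j hj', hb2 i hi' j hj']
  have h3 := hmax (insert p I) (by
    rw [Finset.mem_filter, Finset.mem_powerset]
    exact ⟨Finset.insert_subset hp hIS, hP⟩)
  rw [Finset.card_insert_of_notMem hpI] at h3
  omega

end Pool.Agent.TH274.FL
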