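import Pool.Agent.TH274.FL.Flag

/-!
# Degeneration of the denominator to a hyperplane
-/

open Finset Polynomial Module

namespace Pool.Agent.TH274.FL

variable {K : Type*} [Field K] {ι : Type*} [DecidableEq ι] [Fintype ι]

/-- **Good pairs from a hyperplane section.** -/
theorem good_section [Infinite K] {P V : Submodule K (ι → K)} {w l lam : ι → K}
    {S C : Finset ι} (hSC : S ∪ C = univ) (hdis : Disjoint S C) (hS : ∀ p ∈ S, lam p = 0)
    (hC : ∀ p ∈ C, lam p ≠ 0) (hwl : ∀ p ∈ S, w p * l p ≠ 0)
    (hPV : P ≤ V) (hlam : ∀ e ∈ P, e * lam ∈ V) (hl : ∀ e ∈ P, e * l ∈ V)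
    (horth : ∀ g ∈ V, ∀ m ∈ V, ∑ p, w p * g p * m p = 0)
    {μ : ι → ι → K} (hμ : ∀ p ∈ S, μ p ∈ V) (hμ2 : ∀ p ∈ S, ∀ q ∈ S, μ p q = if p = q then 1 else 0)
    {k : ℕ} {f : Fin k → ι → K} (hf : ∀ j, f j ∈ V) (hf2 : ∀ j, ∀ p ∈ S, f j p = 0)
    (hND : ∀ v : Fin k → K, (∀ a, ∑ j, (∑ p ∈ C, w p * (l p / lam p) * f j p * f a p) * v j = 0) →
      ∀ j, v j = 0)
    (hdim : finrank K V = finrank K P + S.card + k) :
    ∃ t : K, (∀ p, lam p + t ≠ 0) ∧ ∀ u ∈ V, ∀ g ∈ V,
      (∀ p, u p * l p = g p * (lam p + t)) → ∃ e ∈ P, ∀ p, u p = e p * (lam p + t) := by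
  classical
  set m : ι ⊕ Fin k → ι → K := Sum.elim μ f with hm
  set I : Finset (ι ⊕ Fin k) := S.disjSum univ with hI
  have hmV : ∀ a ∈ I, m a ∈ V := by
    intro a ha
    rcases Finset.mem_disjSum.1 ha with ⟨p, hp, rfl⟩ | ⟨j, _, rfl⟩
    · exact hμ p hp
    · exact hf j
  set x' : ι → K := fun _ => 1 with hx'
  have hprod0 : ∏ q ∈ C, lam q ≠ 0 := Finset.prod_ne_zero_iff.2 hC
  -- the system
  obtain ⟨Q, hQ, hQ'⟩ := pert I (fun a b => Sum.elim (fun _ => sys w l lam x' m S C a b)
      (fun _ => rest w l lam x' m C a b) a) (by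
    intro v hv
    have h1 : ∀ p ∈ S, v (Sum.inl p) = 0 := by
      intro p hp
      have h2 := hv (Sum.inl p) (Finset.mem_disjSum.2 (Or.inl ⟨p, hp, rfl⟩))
      simp only [Sum.elim_inl] at h2
      have h3 : ∀ b, (sys w l lam x' m S C (Sum.inl p) b).eval 0 =
          (∏ q ∈ C, lam q) * lead w l x' m S (Sum.inl p) b := by
        intro b
        simp [sys, eval_prod, den_eval]
      simp only [h3] at h2
      rw [hI, Finset.sum_disjSum] at h2
      have h4 : ∀ q ∈ S, lead w l x' m S (Sum.inl p) (Sum.inl q) =
          if p = q then w p * l p else 0 := by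
        intro q hq
        unfold lead
        simp only [hm, Sum.elim_inl]
        by_cases hpq : p = q
        · subst hpq
          rw [if_pos rfl, Finset.sum_eq_single_of_mem p hp]
          · rw [hμ2 p hp p hp, if_pos rfl, hx']
            simp
          · intro r hr hrp
            rw [hμ2 p hp r hr, if_neg (Ne.symm hrp), mul_zero]
        · rw [if_neg hpq]
          apply Finset.sum_eq_zero
          intro r hr
          rw [hμ2 p hp r hr, hμ2 q hq r hr]
          by_cases h5 : p = r
          · subst h5
            rw [if_neg (fun h : q = p => hpq h.symm), mul_zero]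
          · rw [if_neg h5, mul_zero, zero_mul]
      have h5 : ∀ j, lead w l x' m S (Sum.inl p) (Sum.inr j) = 0 := by
        intro j
        unfold lead
        apply Finset.sum_eq_zero
        intro r hr
        simp only [hm, Sum.elim_inr]
        rw [hf2 j r hr, mul_zero]
      simp only [h5, mul_zero, zero_mul, Finset.sum_const_zero, add_zero] at h2
      rw [Finset.sum_congr rfl (fun q hq => by rw [h4 q hq]), Finset.sum_eq_single_of_mem p hp] at h2
      · rw [if_pos rfl] at h2
        exact (mul_eq_zero.1 h2).resolve_left (mul_ne_zero hprod0 (hwl p hp))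
      · intro q _ hqp
        rw [if_neg (Ne.symm hqp), mul_zero, zero_mul]
    have h6 : ∀ j : Fin k, v (Sum.inr j) = 0 := by
      apply hND (fun j => v (Sum.inr j))
      intro a
      have h2 := hv (Sum.inr a) (Finset.mem_disjSum.2 (Or.inr ⟨a, mem_univ _, rfl⟩))
      simp only [Sum.elim_inr] at h2
      rw [hI, Finset.sum_disjSum, Finset.sum_eq_zero (s := S) (fun p hp => by
        rw [h1 p hp, mul_zero]), zero_add] at h2
      have h3 : ∀ j, (rest w l lam x' m C (Sum.inr a) (Sum.inr j)).eval 0 =
          (∏ q ∈ C, lam q) * ∑ p ∈ C, w p * (l p / lam p) * f j p * f a p := by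
        intro j
        simp only [rest, eval_finsetSum, eval_mul, eval_C, eval_prod, den_eval, zero_mul,
          add_zero, hm, Sum.elim_inr]
        rw [Finset.mul_sum]
        apply Finset.sum_congr rfl
        intro p hp
        have h4 := hC p hp
        rw [← Finset.mul_prod_erase C (fun q => lam q) hp]
        field_simp
      simp only [h3] at h2
      have h4 : (∏ q ∈ C, lam q) *
          ∑ j, (∑ p ∈ C, w p * (l p / lam p) * f j p * f a p) * v (Sum.inr j) = 0 := by
        rw [← h2, Finset.mul_sum]
        apply Finset.sum_congr rfl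
        intro j _
        ring
      exact (mul_eq_zero.1 h4).resolve_left hprod0
    intro a ha
    rcases Finset.mem_disjSum.1 ha with ⟨p, hp, rfl⟩ | ⟨j, _, rfl⟩
    · exact h1 p hp
    · exact h6 j)
  have hpi : (∏ q ∈ C, den lam x' q) ≠ 0 := by
    intro h
    apply hprod0
    have := congrArg (fun q => q.eval 0) h
    simpa [eval_prod, den_eval] using this
  obtain ⟨t, ht⟩ := exists_nonroot (mul_ne_zero (mul_ne_zero hQ hpi) X_ne_zero)
  rw [eval_mul, eval_mul, eval_X, eval_prod] at ht
  simp only [den_eval] at ht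
  have ht0 : t ≠ 0 := right_ne_zero_of_mul ht
  have htp : ∏ q ∈ C, (lam q + t * x' q) ≠ 0 := right_ne_zero_of_mul (left_ne_zero_of_mul ht)
  have htC : ∀ p ∈ C, lam p + t * x' p ≠ 0 := Finset.prod_ne_zero_iff.1 htp
  have hx0 : ∀ p, lam p + t ≠ 0 := by
    intro p
    have hp : p ∈ S ∪ C := by rw [hSC]; exact mem_univ _
    rcases Finset.mem_union.1 hp with hp | hp
    · rw [hS p hp, zero_add]
      exact ht0
    · have := htC p hp
      rwa [hx', mul_one] at this
  refine ⟨t, hx0, ?_⟩
  -- elements of the span of the family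
  have key : ∀ v : ι ⊕ Fin k → K, ∀ g ∈ V,
      (∀ p, (∑ a ∈ I, v a * m a p) * l p = g p * (lam p + t)) → ∀ a ∈ I, v a = 0 := by
    intro v g hg hvg
    apply hQ' t (left_ne_zero_of_mul (left_ne_zero_of_mul ht)) v
    intro a ha
    have h2 := sys_eval w l lam x' m S C ht0 htC hS hdis a I v (fun p => ∑ a ∈ I, v a * m a p)
      (fun p _ => rfl)
    rw [hSC] at h2
    have h3 : ∑ p, w p * (l p / (lam p + t * x' p)) * (∑ a ∈ I, v a * m a p) * m a p =
        ∑ p, w p * g p * m a p := by
      apply Finset.sum_congr rfl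
      intro p _
      have h5 := hx0 p
      have h6 : lam p + t * x' p = lam p + t := by rw [hx', mul_one]
      rw [h6]
      have h7 : l p / (lam p + t) * (∑ a ∈ I, v a * m a p) = g p := by
        rw [div_mul_eq_mul_div, div_eq_iff h5, ← hvg p, mul_comm]
      calc w p * (l p / (lam p + t)) * (∑ a ∈ I, v a * m a p) * m a p =
          w p * (l p / (lam p + t) * (∑ a ∈ I, v a * m a p)) * m a p := by ring
        _ = w p * g p * m a p := by rw [h7]
    rw [h3, horth g hg (m a) (hmV a ha), mul_zero] at h2
    rcases Finset.mem_disjSum.1 ha with ⟨p, hp, rfl⟩ | ⟨j, _, rfl⟩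
    · exact h2
    · simp only [Sum.elim_inr]
      have h4 : ∀ b, (sys w l lam x' m S C (Sum.inr j) b).eval t =
          t * (rest w l lam x' m C (Sum.inr j) b).eval t := by
        intro b
        have h5 : lead w l x' m S (Sum.inr j) b = 0 := by
          unfold lead
          apply Finset.sum_eq_zero
          intro r hr
          simp only [hm, Sum.elim_inr]
          rw [hf2 j r hr, mul_zero, zero_mul]
        simp only [sys, eval_add, eval_mul, eval_C, eval_X, h5, mul_zero, zero_add]
      simp only [h4, mul_assoc] at h2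
      rw [← Finset.mul_sum] at h2
      exact (mul_eq_zero.1 h2).resolve_left ht0
  -- the decomposition
  have hxmul : ∀ e ∈ P, (fun p => e p * (lam p + t)) ∈ V := by
    intro e he
    have h1 : (fun p => e p * (lam p + t)) = e * lam + t • e := by
      funext p
      simp only [Pi.add_apply, Pi.mul_apply, Pi.smul_apply, smul_eq_mul]
      ring
    rw [h1]
    exact V.add_mem (hlam e he) (V.smul_mem _ (hPV he))
  have hsum : ∀ v : I → K, (fun p => ∑ a : I, v a * m a p) ∈ V := by
    intro v
    have h1 : (fun p => ∑ a : I, v a * m a p) = ∑ a : I, v a • m a := by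
      funext p
      simp [Finset.sum_apply]
    rw [h1]
    exact V.sum_mem fun a _ => V.smul_mem _ (hmV a a.2)
  let Φ : (P × (I → K)) →ₗ[K] V :=
    { toFun := fun z => ⟨fun p => z.1.1 p * (lam p + t) + ∑ a : I, z.2 a * m a p,
        V.add_mem (hxmul _ z.1.2) (hsum z.2)⟩
      map_add' := by
        intro z z'
        apply Subtype.ext
        funext p
        simp only [Prod.fst_add, Submodule.coe_add, Pi.add_apply, Prod.snd_add, add_mul,
          Finset.sum_add_distrib]
        ring
      map_smul' := by
        intro c z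
        apply Subtype.ext
        funext p
        simp only [Prod.smul_fst, Submodule.coe_smul, Pi.smul_apply, smul_eq_mul, Prod.smul_snd,
          RingHom.id_apply, mul_add, Finset.mul_sum, mul_assoc] }
  have hext : ∀ v : I → K, ∀ p, ∑ a : I, v a * m a p =
      ∑ a ∈ I, (fun a => if h : a ∈ I then v ⟨a, h⟩ else 0) a * m a p := by
    intro v p
    rw [← Finset.sum_coe_sort I]
    apply Finset.sum_congr rfl
    intro a _
    simp
  have key' : ∀ v : I → K, ∀ g ∈ V,
      (∀ p, (∑ a : I, v a * m a p) * l p = g p * (lam p + t)) → v = 0 := by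
    intro v g hg hvg
    have h1 := key (fun a => if h : a ∈ I then v ⟨a, h⟩ else 0) g hg (by
      intro p
      rw [← hext v p]
      exact hvg p)
    funext a
    have h2 := h1 a a.2
    simpa using h2
  have hinj : Function.Injective Φ := by
    rw [← LinearMap.ker_eq_bot, LinearMap.ker_eq_bot']
    rintro ⟨e, v⟩ hz
    have h1 : ∀ p, e.1 p * (lam p + t) + ∑ a : I, v a * m a p = 0 := by
      intro p
      exact congrFun (congrArg Subtype.val hz) p
    have h2 : v = 0 := by
      apply key' v (-(e.1 * l)) (V.neg_mem (hl e.1 e.2))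
      intro p
      have h3 := h1 p
      simp only [Pi.neg_apply, Pi.mul_apply]
      linear_combination l p * h3
    subst h2
    have h3 : e = 0 := by
      apply Subtype.ext
      funext p
      have h4 := h1 p
      simp only [Pi.zero_apply, zero_mul, Finset.sum_const_zero, add_zero] at h4
      exact (mul_eq_zero.1 h4).resolve_right (hx0 p)
    rw [h3]
    rfl
  have hsurj : Function.Surjective Φ := by
    rw [← LinearMap.range_eq_top]
    apply Submodule.eq_top_of_finrank_eq
    rw [LinearMap.finrank_range_of_inj hinj, Module.finrank_prod, Module.finrank_fintype_fun_eq_card,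
      Fintype.card_coe, hI, Finset.card_disjSum, Finset.card_univ, Fintype.card_fin, hdim]
    omega
  intro u hu g hg hug
  obtain ⟨⟨e, v⟩, hz⟩ := hsurj ⟨u, hu⟩
  have h1 : ∀ p, e.1 p * (lam p + t) + ∑ a : I, v a * m a p = u p := by
    intro p
    exact congrFun (congrArg Subtype.val hz) p
  have h2 : v = 0 := by
    apply key' v (g - e.1 * l) (V.sub_mem hg (hl e.1 e.2))
    intro p
    have h3 := h1 p
    have h4 := hug p
    simp only [Pi.sub_apply, Pi.mul_apply]
    linear_combination l p * h3 + h4
  subst h2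
  refine ⟨e, e.2, fun p => ?_⟩
  have h3 := h1 p
  simp only [Pi.zero_apply, zero_mul, Finset.sum_const_zero, add_zero] at h3
  exact h3.symm

end Pool.Agent.TH274.FL
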